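import Pool.Agent.W2helper58.NX.Gap

/-!
# A gap theorem for the advice needed to complement nondeterministic exponential time

Complements of `NEXP` languages are in `NEXP` with `n + 1` bits of advice (the number of strings of length `n` in the
language). We show: if `δ < 1` and `O(n ^ δ)` bits are enough for all complements of `NEXP` languages, then `O(n ^ ε)` bits are
enough, for every `ε > 0`; and if `c < 1` and `c n + O(1)` bits are enough then `ε n + O(1)` bits are enough, for every
`ε > 0`.

Proof. Let `L` be in `NEXP` and let `B` in `NEXP` with advice strings `f n` define the complement of `L`. Call a string `a`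
unsound for `n` if some `x` in `L` of length `n` satisfies `⟨x, a⟩ ∈ B`. This is an `NEXP` property of `n` (in binary) and `a`,
if `a` is padded to length at least `n ^ (1/K)` for a constant `K`. So by hypothesis soundness is in `NEXP` with advice, which
is applied to a string of length about `|f n|` instead of `n`. Now `x` is not in `L` if and only if there is a sound `a` with
`⟨x, a⟩ ∈ B`. Hence the new advice has length `|f' (N)|` plus `O(log n)`, where `N` is about `|f n|`; so `δ` can be replaced by
`δ ^ 2`, and `c` by any number larger than `c ^ 2`. This is repeated a constant number of times.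
-/

set_option autoImplicit false

namespace Pool.Agent.Results.MP_6cef49_lc.AdviceGap

open Pool.Agent.NPC Pool.Agent.W2helper58.NX

/-- (1) If for some `δ < 1` every complement of an `NEXP` language is in `NEXP` with advice of length `O(n ^ δ)`, then the
same is true with `O(n ^ ε)` for every `ε > 0`.
(2) If for some `c < 1` every complement of an `NEXP` language is in `NEXP` with advice of length `c n + O(1)`, then the
same is true with `ε n + O(1)` for every `ε > 0`. -/
theorem result :
    (∀ δ : ℝ, δ < 1 → (∀ L, IsNEXP L → ∃ C : ℝ, WithAdvice (fun n => C * (n : ℝ) ^ δ + C) Lᶜ) →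
      ∀ ε : ℝ, 0 < ε → ∀ L, IsNEXP L → ∃ C : ℝ, WithAdvice (fun n => C * (n : ℝ) ^ ε + C) Lᶜ) ∧
    (∀ c : ℝ, c < 1 → (∀ L, IsNEXP L → ∃ C : ℝ, WithAdvice (fun n => c * n + C) Lᶜ) →
      ∀ ε : ℝ, 0 < ε → ∀ L, IsNEXP L → ∃ C : ℝ, WithAdvice (fun n => ε * n + C) Lᶜ) :=
  ⟨fun _ h1 h _ hε => pow_gap h1 h hε, fun _ h1 h _ hε => lin_gap h1 h hε⟩

end Pool.Agent.Results.MP_6cef49_lc.AdviceGap
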