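import Pool.Agent.W2helper57.NEX.Asym
import Pool.Agent.W2helper57.NEX.NonNull
import Pool.Agent.W2helper57.NEX.Gap
import Pool.Agent.H620R2.Gauge2.Null

/-!
# MP_6cef49_lc: for how many oracles is `NEXP` closed under complement?

`Oracle`, `IsFP`, `IsPSPACE`, `IsPHpoly`, `Null` are defined in `Pool.Agent.H620R2.Gauge.Defs`,
`IsNEXP` is defined in `Pool.Agent.H620R2.GaugeX.Defs` and `WithAdviceLen` in
`Pool.Agent.W2helper57.NEX.Defs`.

For `f = 0`, `Null f` means Lebesgue measure `0`; the larger `f` is, the smaller are the null sets.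

The proof. Upper bound: if there are `n + 1` bits for every length `n` and every machine, then the
oracle can store the census of the machine (the number of accepted inputs of length `n`), from
which nondeterministic machines get the complement. The `n + 1` bits can be stored so sparsely that
at most `(log log N) ^ ε` of the first `N` bits of the oracle are changed. Lower bound: for most
oracles the census is the best way to use advice. Let `L(A)` be the set of the `x` of length `n` for
which some block of `2 ^ n` strings of length `n + 2 * 2 ^ n` belonging to `x` is contained in `A`.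
Random windows are made full or not full independently for all `x`; nondeterministic acceptance
of `x` for the complement uses few windows, so the sets which are treated correctly with the same
advice behave like an antichain, and an antichain of subsets of a set with `2 ^ n` elements has
density about `2 ^ (-n / 2)` (Sperner). This excludes advice of length `c n` for `c < 1 / 2`, and the
gap theorem for linear advice (`Pool.Agent.W2helper58.NX.Gap`, relativized here) excludes all
`c < 1`.
-/

set_option autoImplicit false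

namespace Pool.Agent.Results.MP_6cef49_lc.GaugeOfEquality

open Pool.Agent.NPC Pool.Agent.H620R2.Gauge

/-- (1) The set of the oracles relative to which `NEXP` is closed under complement, and every larger
set of oracles relative to which, for some `c < 1`, all complements of `NEXP` languages are in `NEXP`
with advice of length `c n + O(1)`, is null for the gauge `f` if and only if for every `ε > 0` there
are infinitely many `N` with `f N ≤ (log₂ log₂ N) ^ ε`.

(2) The special case of the oracles with `NEXP = coNEXP`.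

(3) If `f` is at least `(log₂ log₂ N) ^ ε` for some `ε > 0` and all large `N`, and at most
`2 ^ (log₂ N) ^ ε` for every `ε > 0` and infinitely many `N`, then the set of the oracles with
`NEXP = coNEXP` relative to which `PSPACE` is not contained in the polynomial hierarchy with
polynomial advice is not null for `f`. -/
theorem result (f : ℕ → ℝ) :
    (∀ O : Set Oracle,
      (∀ A : Oracle, (∀ L, IsNEXP A L → IsNEXP A Lᶜ) → A ∈ O) →
      (∀ A ∈ O, ∃ c : ℝ, c < 1 ∧ ∀ L, IsNEXP A L → ∃ C : ℝ,
        WithAdviceLen (IsNEXP A) (fun n => c * n + C) Lᶜ) →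
      (Null f O ↔ ∀ ε : ℝ, 0 < ε → ∃ᶠ N : ℕ in Filter.atTop,
        f N ≤ (Real.logb 2 (Real.logb 2 N)) ^ ε)) ∧
    (Null f {A : Oracle | ∀ L, IsNEXP A L → IsNEXP A Lᶜ} ↔
      ∀ ε : ℝ, 0 < ε → ∃ᶠ N : ℕ in Filter.atTop,
        f N ≤ (Real.logb 2 (Real.logb 2 N)) ^ ε) ∧
    ((∃ ε : ℝ, 0 < ε ∧ ∀ᶠ N : ℕ in Filter.atTop,
        (Real.logb 2 (Real.logb 2 N)) ^ ε < f N) →
      (∀ ε : ℝ, 0 < ε → ∃ᶠ N : ℕ in Filter.atTop, f N ≤ 2 ^ (Real.logb 2 N) ^ ε) →
      ¬ Null f {A : Oracle | (∀ L, IsNEXP A L → IsNEXP A Lᶜ) ∧
        ∃ L, IsPSPACE A L ∧ ¬ IsPHpoly A L}) := by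
  have key : ∀ O : Set Oracle,
      (∀ A : Oracle, (∀ L, IsNEXP A L → IsNEXP A Lᶜ) → A ∈ O) →
      (∀ A ∈ O, ∃ c : ℝ, c < 1 ∧ ∀ L, IsNEXP A L → ∃ C : ℝ,
        WithAdviceLen (IsNEXP A) (fun n => c * n + C) Lᶜ) →
      (Null f O ↔ ∀ ε : ℝ, 0 < ε → ∃ᶠ N : ℕ in Filter.atTop,
        f N ≤ (Real.logb 2 (Real.logb 2 N)) ^ ε) := by
    intro O h1 h2
    constructor
    · intro hn ε hε
      by_contra hcon
      rw [Filter.not_frequently] at hcon
      exact not_nullNEc f ε hε (hcon.mono fun N h => not_le.1 h) O h1 hn
    · intro hf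
      refine nullNE f hf O fun A hA => ?_
      obtain ⟨c, hc, h⟩ := h2 A hA
      have h3 : Gp.Lin A c := h
      exact ⟨1 / 4, by norm_num, Gp.lin_gap hc h3 (by norm_num) _ (isNEXP_tribes A)⟩
  refine ⟨key, key _ (fun A hA => hA) fun A hA => ⟨0, one_pos, fun L hL =>
    ⟨0, Gp.withAdviceLen_of (hA L hL)⟩⟩, ?_⟩
  rintro ⟨ε, hε, h1⟩ h2 hn
  have h3 : Null f {A : Oracle | IsPHpoly A (parLang A)} :=
    null_of_frequently f h2 _ fun A hA => hA
  refine not_nullNEc f ε hε h1 ({A : Oracle | (∀ L, IsNEXP A L → IsNEXP A Lᶜ) ∧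
    ∃ L, IsPSPACE A L ∧ ¬ IsPHpoly A L} ∪ {A : Oracle | IsPHpoly A (parLang A)})
    (fun A hA => ?_) (null_union hn h3)
  by_cases h : IsPHpoly A (parLang A)
  · exact Or.inr h
  · exact Or.inl ⟨hA, parLang A, parLang_pspace A, h⟩

end Pool.Agent.Results.MP_6cef49_lc.GaugeOfEquality
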