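import Pool.Agent.W2helper5.OB.Main

/-!
# MP_6cef49_lc: how much advice complementing `NEXP` may need, relative to oracles

`IsNEXP A`, `IsEXPSPACE A` and `Advice` are defined in `Pool.Agent.W2helper5.OB.Cls`; `IsNP A` is
defined in `Pool.Agent.W2helper58.BR.Cls`, and `Oracle`, `Alg`, `IsFP`, `IsPSPACE` are defined in
`Pool.Agent.H620R2.Gauge.Defs`.
-/

set_option autoImplicit false

namespace Pool.Agent.Results.MP_6cef49_lc.OneBitOracle

open Pool.Agent.NPC Pool.Agent.H620R2.Gauge Pool.Agent.W2helper58.BR Pool.Agent.W2helper5.OB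

/-- Let `a : ℕ → ℕ` be nondecreasing with `a n < n` for infinitely many `n`. Relative to some
oracle `A`, the complement of some language in `NEXP` is not in `NEXP` with advice of any length
`g ≤ a`, but every language in `coNEXP` or in `EXPSPACE` is in `NEXP` with advice of length exactly
`a(q(n)) + 1` for a polynomial `q`, and every language in `coNP` or in `PSPACE` is even in `NP`
with advice of length `a(log₂ q(n)) + 1`.

In particular (`a = 0`), relative to some oracle, `NEXP ≠ coNEXP` although all languages in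
`coNEXP` and in `EXPSPACE` are in `NEXP` with a single bit of advice and all languages in `coNP`
and in `PSPACE` are in `NP` with a single bit of advice. -/
theorem result :
    (∀ a : ℕ → ℕ, Monotone a → (∀ N, ∃ n ≥ N, a n < n) → ∃ A : Oracle,
      (∃ L, IsNEXP A L ∧ ∀ g : ℕ → ℕ, (∀ n, g n ≤ a n) → ¬ Advice (IsNEXP A) g Lᶜ) ∧
      (∀ L, (IsNEXP A Lᶜ ∨ IsEXPSPACE A L) → ∃ q : Polynomial ℕ,
        Advice (IsNEXP A) (fun n => a (q.eval n) + 1) L) ∧
      ∀ L, (IsNP A Lᶜ ∨ IsPSPACE A L) → ∃ q : Polynomial ℕ,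
        Advice (IsNP A) (fun n => a (Nat.log 2 (q.eval n)) + 1) L) ∧
    ∃ A : Oracle, (∃ L, IsNEXP A L ∧ ¬ IsNEXP A Lᶜ) ∧
      (∀ L, (IsNEXP A Lᶜ ∨ IsEXPSPACE A L) → Advice (IsNEXP A) (fun _ => 1) L) ∧
      ∀ L, (IsNP A Lᶜ ∨ IsPSPACE A L) → Advice (IsNP A) (fun _ => 1) L := by
  refine ⟨main, ?_⟩
  obtain ⟨A, ⟨L, h1, h2⟩, h3, h4⟩ := main (fun _ => 0) monotone_const
    fun N => ⟨N + 1, by omega, by omega⟩
  refine ⟨A, ⟨L, h1, fun h => h2 (fun _ => 0) (fun _ => le_rfl) (advice_of h)⟩,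
    fun L hL => ?_, fun L hL => ?_⟩
  · obtain ⟨q, hq⟩ := h3 L hL
    exact hq
  · obtain ⟨q, hq⟩ := h4 L hL
    exact hq

end Pool.Agent.Results.MP_6cef49_lc.OneBitOracle
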